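import Pool.Agent.helper20.FX.Spec

/-!
# Project fm (MP_37e5fa_nt): module LRG (large multipliers)
-/

set_option autoImplicit false

namespace Pool.Agent.FXM

open Finset

theorem LRG (hREL : REL_stmt) : LRG_stmt := by
  intro k M n κ hk h3 hn hdvd hκ hκL
  obtain ⟨hnM, -, -, hX⟩ := hREL k M n hk h3 hn hdvd
  set L : ℝ := Real.logb 2 k with hL
  have hk3 : (3 : ℝ) ≤ k := by exact_mod_cast h3
  have hk0 : (0 : ℝ) < k := by linarith
  have hL1 : 1 ≤ L := by
    rw [hL, Real.le_logb_iff_rpow_le (by norm_num) hk0]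
    norm_num
    linarith
  have hkM : k ≤ 2 ^ M := by
    have h1 := Nat.le_of_dvd (by positivity) hdvd
    have h2 : 1 ≤ 2 ^ n := Nat.one_le_two_pow
    nlinarith
  have hLM : L ≤ M := by
    rw [hL, Real.logb_le_iff_le_rpow (by norm_num) hk0, Real.rpow_natCast]
    exact_mod_cast hkM
  have hM0 : (0 : ℝ) ≤ M := Nat.cast_nonneg M
  have hML : (0 : ℝ) ≤ M * L := by positivity
  have hX' : (n : ℝ) ^ 2 < M * L := by
    simpa [XX, hL] using hX
  have hn1 : (n : ℝ) ≤ √((M : ℝ) * L) := Real.le_sqrt_of_sq_le hX'.le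
  have hL2 : L ≤ √((M : ℝ) * L) := by
    refine Real.le_sqrt_of_sq_le ?_
    nlinarith
  have hlog : Real.logb 2 ((k : ℝ) * 2 ^ n + 1) ≤ n + 2 * L := by
    have h1 : (k : ℝ) * 2 ^ n + 1 ≤ 2 * (k * 2 ^ n) := by
      have h2 : (1 : ℝ) ≤ 2 ^ n := one_le_pow₀ (by norm_num)
      nlinarith
    have h2 : Real.logb 2 (2 * ((k : ℝ) * 2 ^ n)) = 1 + (L + n) := by
      rw [Real.logb_mul (by norm_num) (by positivity), Real.logb_mul hk0.ne' (by positivity),
        Real.logb_self_eq_one (by norm_num), Real.logb_pow, Real.logb_self_eq_one (by norm_num),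
        mul_one]
    have h3 : Real.logb 2 ((k : ℝ) * 2 ^ n + 1) ≤ Real.logb 2 (2 * ((k : ℝ) * 2 ^ n)) :=
      Real.logb_le_logb_of_le (by norm_num) (by positivity) h1
    rw [h2] at h3
    linarith
  have h4 : Real.logb 2 ((k : ℝ) * 2 ^ n + 1) ≤ 3 * √((M : ℝ) * L) := by linarith
  have h5 : √κ ≤ √L := Real.sqrt_le_sqrt hκL
  have h6 : √((M : ℝ) * L) = √(M : ℝ) * √L := Real.sqrt_mul hM0 L
  have h7 : √L * √L = L := Real.mul_self_sqrt (by linarith)
  calc Real.logb 2 ((k : ℝ) * 2 ^ n + 1) * √κ ≤ 3 * √((M : ℝ) * L) * √L := by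
        gcongr
    _ = 3 * √(M : ℝ) * (√L * √L) := by rw [h6]; ring
    _ = 3 * √(M : ℝ) * L := by rw [h7]

end Pool.Agent.FXM
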