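import Pool.Agent.helper20.FX.Spec

/-!
# Project fm (MP_37e5fa_nt): module SMP (small multipliers contribute little)
-/

set_option autoImplicit false

namespace Pool.Agent.FXM

open Finset

/-- the logarithm of `k 2 ^ n + 1` -/
lemma SMP_log (k n : ℕ) (h3 : 3 ≤ k) :
    Real.logb 2 ((k : ℝ) * 2 ^ n + 1) ≤ n + 2 * Real.logb 2 k ∧ 1 ≤ Real.logb 2 k := by
  have hk3 : (3 : ℝ) ≤ k := by exact_mod_cast h3
  have hk0 : (0 : ℝ) < k := by linarith
  have hL1 : 1 ≤ Real.logb 2 k := by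
    rw [Real.le_logb_iff_rpow_le (by norm_num) hk0]
    norm_num
    linarith
  refine ⟨?_, hL1⟩
  have h1 : (k : ℝ) * 2 ^ n + 1 ≤ 2 * (k * 2 ^ n) := by
    have h2 : (1 : ℝ) ≤ 2 ^ n := one_le_pow₀ (by norm_num)
    nlinarith
  have h2 : Real.logb 2 (2 * ((k : ℝ) * 2 ^ n)) = 1 + (Real.logb 2 k + n) := by
    rw [Real.logb_mul (by norm_num) (by positivity), Real.logb_mul hk0.ne' (by positivity),
      Real.logb_self_eq_one (by norm_num), Real.logb_pow, Real.logb_self_eq_one (by norm_num),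
      mul_one]
  have h3 : Real.logb 2 ((k : ℝ) * 2 ^ n + 1) ≤ Real.logb 2 (2 * ((k : ℝ) * 2 ^ n)) :=
    Real.logb_le_logb_of_le (by norm_num) (by positivity) h1
  rw [h2] at h3
  linarith

theorem SMP (hMAI : MAI_stmt) (hGLG : GLG_stmt) : SMP_stmt := by
  obtain ⟨C, hC, hmai⟩ := hMAI (1 / 100) (by norm_num)
  obtain ⟨C₁, -, hglg⟩ := hGLG (1 / 100) (by norm_num)
  set B : ℝ := max C₁ 1 with hB
  have hB1 : 1 ≤ B := le_max_right _ _
  have hB0 : 0 < B := by linarith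
  set C' : ℝ := 3 * C * B ^ 2 with hC'
  have hC'0 : 0 < C' := by positivity
  refine ⟨⌈(4 * C') ^ (200 : ℕ)⌉₊ + 1, fun M K hM hK => ?_⟩
  have hM1 : (1 : ℝ) ≤ M := by
    have : 1 ≤ M := by omega
    exact_mod_cast this
  have hM0 : (0 : ℝ) < M := by linarith
  have hMbig : (4 * C') ^ (200 : ℕ) ≤ M := by
    have h1 : (⌈(4 * C') ^ (200 : ℕ)⌉₊ : ℝ) ≤ M := by
      have : ⌈(4 * C') ^ (200 : ℕ)⌉₊ ≤ M := by omega
      exact_mod_cast this
    exact (Nat.le_ceil _).trans h1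
  -- the inner sum
  have hinner : ∀ k ∈ (Icc 3 K).filter (fun k => Odd k),
      ∑ n ∈ SS k M, Real.logb 2 ((k : ℝ) * 2 ^ n + 1) ≤ C' * (M : ℝ) ^ (87 / 100 : ℝ) := by
    intro k hk
    rw [mem_filter, mem_Icc] at hk
    obtain ⟨⟨h3, hkK⟩, hodd⟩ := hk
    obtain ⟨hcard, hsum⟩ := hmai k M hodd h3
    obtain ⟨-, hL1⟩ := SMP_log k 0 h3
    have hk0 : (0 : ℝ) < k := by
      have : 0 < k := by omega
      exact_mod_cast this
    set L : ℝ := Real.logb 2 k with hL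
    have hkM : (k : ℝ) ≤ M := by
      calc (k : ℝ) ≤ K := by exact_mod_cast hkK
        _ ≤ (M : ℝ) ^ (1 / 8 : ℝ) := hK
        _ ≤ (M : ℝ) ^ (1 : ℝ) := Real.rpow_le_rpow_of_exponent_le hM1 (by norm_num)
        _ = M := Real.rpow_one _
    have hLB : L ≤ B * (M : ℝ) ^ (1 / 100 : ℝ) := by
      have h1 : L ≤ Real.logb 2 M := Real.logb_le_logb_of_le (by norm_num) hk0 hkM
      have h2 := hglg M hM1
      have h3 : C₁ * (M : ℝ) ^ (1 / 100 : ℝ) ≤ B * (M : ℝ) ^ (1 / 100 : ℝ) := by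
        gcongr
        exact le_max_left _ _
      linarith
    have hXX : XX k M = M * L := rfl
    have hX0 : 0 < XX k M := by rw [hXX]; positivity
    have hXB : XX k M ≤ B * (M : ℝ) ^ (101 / 100 : ℝ) := by
      rw [hXX]
      calc (M : ℝ) * L ≤ M * (B * (M : ℝ) ^ (1 / 100 : ℝ)) := by gcongr
        _ = B * ((M : ℝ) ^ (1 : ℝ) * (M : ℝ) ^ (1 / 100 : ℝ)) := by rw [Real.rpow_one]; ring
        _ = B * (M : ℝ) ^ (101 / 100 : ℝ) := by
            rw [← Real.rpow_add hM0]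
            norm_num
    -- powers of `XX k M`
    have hpow : ∀ s : ℝ, 0 ≤ s → s ≤ 1 → XX k M ^ s ≤ B * (M : ℝ) ^ (101 / 100 * s) := by
      intro s hs0 hs1
      calc XX k M ^ s ≤ (B * (M : ℝ) ^ (101 / 100 : ℝ)) ^ s :=
            Real.rpow_le_rpow hX0.le hXB hs0
        _ = B ^ s * (M : ℝ) ^ (101 / 100 * s) := by
            rw [Real.mul_rpow hB0.le (by positivity), ← Real.rpow_mul hM0.le]
        _ ≤ B ^ (1 : ℝ) * (M : ℝ) ^ (101 / 100 * s) := by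
            gcongr
        _ = B * (M : ℝ) ^ (101 / 100 * s) := by rw [Real.rpow_one]
    have h1 : ∑ n ∈ SS k M, Real.logb 2 ((k : ℝ) * 2 ^ n + 1) ≤
        ∑ n ∈ SS k M, (n : ℝ) + (SS k M).card * (2 * L) := by
      calc ∑ n ∈ SS k M, Real.logb 2 ((k : ℝ) * 2 ^ n + 1)
          ≤ ∑ n ∈ SS k M, ((n : ℝ) + 2 * L) := sum_le_sum fun n _ => (SMP_log k n h3).1
        _ = ∑ n ∈ SS k M, (n : ℝ) + (SS k M).card * (2 * L) := by
            rw [sum_add_distrib, sum_const, nsmul_eq_mul]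
    have h2 : ∑ n ∈ SS k M, (n : ℝ) ≤ C * (B * (M : ℝ) ^ (87 / 100 : ℝ)) := by
      refine hsum.trans ?_
      refine mul_le_mul_of_nonneg_left ?_ hC.le
      refine (hpow (5 / 6 + 1 / 100) (by norm_num) (by norm_num)).trans ?_
      refine mul_le_mul_of_nonneg_left ?_ hB0.le
      exact Real.rpow_le_rpow_of_exponent_le hM1 (by norm_num)
    have h3 : ((SS k M).card : ℝ) * (2 * L) ≤ 2 * C * (B ^ 2 * (M : ℝ) ^ (87 / 100 : ℝ)) := by
      have h4 : ((SS k M).card : ℝ) ≤ C * (B * (M : ℝ) ^ (101 / 100 * (2 / 5 + 1 / 100) : ℝ)) := by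
        refine hcard.trans ?_
        refine mul_le_mul_of_nonneg_left ?_ hC.le
        exact hpow (2 / 5 + 1 / 100) (by norm_num) (by norm_num)
      calc ((SS k M).card : ℝ) * (2 * L)
          ≤ C * (B * (M : ℝ) ^ (101 / 100 * (2 / 5 + 1 / 100) : ℝ)) *
              (2 * (B * (M : ℝ) ^ (1 / 100 : ℝ))) := by
            gcongr
        _ = 2 * C * (B ^ 2 * ((M : ℝ) ^ (101 / 100 * (2 / 5 + 1 / 100) : ℝ) *
              (M : ℝ) ^ (1 / 100 : ℝ))) := by ring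
        _ = 2 * C * (B ^ 2 * (M : ℝ) ^ (101 / 100 * (2 / 5 + 1 / 100) + 1 / 100 : ℝ)) := by
            rw [Real.rpow_add hM0]
        _ ≤ 2 * C * (B ^ 2 * (M : ℝ) ^ (87 / 100 : ℝ)) := by
            gcongr
            norm_num
    have hMp : 0 ≤ (M : ℝ) ^ (87 / 100 : ℝ) := by positivity
    calc ∑ n ∈ SS k M, Real.logb 2 ((k : ℝ) * 2 ^ n + 1)
        ≤ C * (B * (M : ℝ) ^ (87 / 100 : ℝ)) + 2 * C * (B ^ 2 * (M : ℝ) ^ (87 / 100 : ℝ)) := by
          linarith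
      _ ≤ C * (B ^ 2 * (M : ℝ) ^ (87 / 100 : ℝ)) + 2 * C * (B ^ 2 * (M : ℝ) ^ (87 / 100 : ℝ)) := by
          gcongr
          nlinarith
      _ = C' * (M : ℝ) ^ (87 / 100 : ℝ) := by rw [hC']; ring
  refine (sum_le_sum hinner).trans ?_
  rw [sum_const, nsmul_eq_mul]
  have hcardK : ((((Icc 3 K).filter (fun k => Odd k)).card : ℕ) : ℝ) ≤ (M : ℝ) ^ (1 / 8 : ℝ) := by
    refine le_trans ?_ hK
    have h1 : ((Icc 3 K).filter (fun k => Odd k)).card ≤ K := by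
      refine (card_filter_le _ _).trans ?_
      rw [Nat.card_Icc]
      omega
    exact_mod_cast h1
  have h200 : 4 * C' ≤ (M : ℝ) ^ (1 / 200 : ℝ) := by
    have h1 : ((4 * C') ^ (200 : ℕ)) ^ (1 / 200 : ℝ) ≤ (M : ℝ) ^ (1 / 200 : ℝ) :=
      Real.rpow_le_rpow (by positivity) hMbig (by norm_num)
    have h2 : ((4 * C') ^ (200 : ℕ)) ^ (1 / 200 : ℝ) = 4 * C' := by
      rw [← Real.rpow_natCast, ← Real.rpow_mul (by positivity)]
      norm_num
    rwa [h2] at h1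
  calc ((((Icc 3 K).filter (fun k => Odd k)).card : ℕ) : ℝ) * (C' * (M : ℝ) ^ (87 / 100 : ℝ))
      ≤ (M : ℝ) ^ (1 / 8 : ℝ) * (C' * (M : ℝ) ^ (87 / 100 : ℝ)) := by gcongr
    _ = C' * ((M : ℝ) ^ (1 / 8 : ℝ) * (M : ℝ) ^ (87 / 100 : ℝ)) := by ring
    _ = C' * (M : ℝ) ^ (199 / 200 : ℝ) := by
        rw [← Real.rpow_add hM0]
        norm_num
    _ ≤ (M : ℝ) ^ (1 / 200 : ℝ) / 4 * (M : ℝ) ^ (199 / 200 : ℝ) := by
        gcongr
        linarith
    _ = ((M : ℝ) ^ (1 / 200 : ℝ) * (M : ℝ) ^ (199 / 200 : ℝ)) / 4 := by ring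
    _ = (M : ℝ) / 4 := by
        rw [← Real.rpow_add hM0]
        norm_num

end Pool.Agent.FXM
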